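import Mathlib

/-!
# Families of intervals without large twists split into few stacks

Intervals are pairs `(a, b)` of natural numbers with `a < b`. Two intervals cross if they overlap
and neither contains the other. We prove that a finite family without `r` pairwise crossing intervals
can be coloured with boundedly many colours such that crossing intervals get different colours
(Gyárfás: circle graphs are `χ`-bounded).
-/

set_option autoImplicit false

namespace Pool.Agent.H66.Circle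

/-- `p` crosses `q`, with `p` on the left. -/
def cr (p q : ℕ × ℕ) : Prop := p.1 < q.1 ∧ q.1 < p.2 ∧ p.2 < q.2

/-- `q` is nested in `p`. -/
def ns (p q : ℕ × ℕ) : Prop := p.1 < q.1 ∧ q.2 < p.2

open scoped Classical in
/-- The elements of `M` with the property `P`. -/
noncomputable def flt {α : Type} (M : Finset α) (P : α → Prop) : Finset α := M.filter P

lemma mem_flt {α : Type} {M : Finset α} {P : α → Prop} {a : α} :
    a ∈ flt M P ↔ a ∈ M ∧ P a := by
  simp [flt]

lemma flt_subset {α : Type} (M : Finset α) (P : α → Prop) : flt M P ⊆ M :=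
  fun _ ha => (mem_flt.mp ha).1

lemma flt_mono {α : Type} {M M' : Finset α} (h : M' ⊆ M) (P : α → Prop) :
    flt M' P ⊆ flt M P := fun _ ha => mem_flt.mpr ⟨h (mem_flt.mp ha).1, (mem_flt.mp ha).2⟩

/-- Colouring with `n` colours such that related elements get different colours. -/
def Col {α : Type} (R : α → α → Prop) (M : Finset α) (n : ℕ) : Prop :=
  ∃ c : α → ℕ, (∀ p ∈ M, c p < n) ∧ ∀ p ∈ M, ∀ q ∈ M, R p q → c p ≠ c q

lemma Col.mono {α : Type} {R : α → α → Prop} {M : Finset α} {n n' : ℕ} (h : Col R M n)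
    (hn : n ≤ n') : Col R M n' := by
  obtain ⟨c, h1, h2⟩ := h
  exact ⟨c, fun p hp => lt_of_lt_of_le (h1 p hp) hn, h2⟩

lemma Col.subset {α : Type} {R : α → α → Prop} {M M' : Finset α} {n : ℕ} (h : Col R M n)
    (hM : M' ⊆ M) : Col R M' n := by
  obtain ⟨c, h1, h2⟩ := h
  exact ⟨c, fun p hp => h1 p (hM hp), fun p hp q hq => h2 p (hM hp) q (hM hq)⟩

lemma Col.union {α : Type} [DecidableEq α] {R : α → α → Prop} {M M' : Finset α} {n n' : ℕ}
    (h : Col R M n) (h' : Col R M' n') : Col R (M ∪ M') (n + n') := by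
  obtain ⟨c, h1, h2⟩ := h
  obtain ⟨c', h1', h2'⟩ := h'
  refine ⟨fun p => if p ∈ M then c p else n + c' p, ?_, ?_⟩
  · intro p hp
    show (if p ∈ M then c p else n + c' p) < n + n'
    by_cases hpM : p ∈ M
    · rw [if_pos hpM]
      have := h1 p hpM
      omega
    · rw [if_neg hpM]
      rw [Finset.mem_union] at hp
      have := h1' p (hp.resolve_left hpM)
      omega
  · intro p hp q hq hR
    show (if p ∈ M then c p else n + c' p) ≠ (if q ∈ M then c q else n + c' q)
    rw [Finset.mem_union] at hp hq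
    by_cases hpM : p ∈ M
    · rw [if_pos hpM]
      by_cases hqM : q ∈ M
      · rw [if_pos hqM]
        exact h2 p hpM q hqM hR
      · rw [if_neg hqM]
        have := h1 p hpM
        omega
    · rw [if_neg hpM]
      by_cases hqM : q ∈ M
      · rw [if_pos hqM]
        have := h1 q hqM
        omega
      · rw [if_neg hqM]
        have := h2' p (hp.resolve_left hpM) q (hq.resolve_left hqM) hR
        omega

/-- Mirsky's theorem: a transitive relation without chains of length `n + 1` is `n`-colourable. -/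
lemma mirsky {α : Type} [DecidableEq α] (R : α → α → Prop) :
    ∀ (n : ℕ) (M : Finset α),
      (∀ a ∈ M, ∀ b ∈ M, ∀ c ∈ M, R a b → R b c → R a c) →
      (∀ T : List α, T.Pairwise R → (∀ a ∈ T, a ∈ M) → T.length ≤ n) → Col R M n := by
  classical
  intro n
  induction n with
  | zero =>
    intro M _ hT
    refine ⟨fun _ => 0, ?_, ?_⟩
    · intro p hp
      have := hT [p] (by simp) (by simpa using hp)
      simp at this
    · intro p hp
      have := hT [p] (by simp) (by simpa using hp)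
      simp at this
  | succ n ih =>
    intro M htr hT
    set M0 := flt M (fun a => ∀ b ∈ M, ¬ R b a) with hM0
    have hcol := ih (M \ M0) (by
      intro a ha b hb c hc
      exact htr a (Finset.mem_sdiff.mp ha).1 b (Finset.mem_sdiff.mp hb).1 c
        (Finset.mem_sdiff.mp hc).1) (by
      intro T hTR hTM
      cases T with
      | nil => simp
      | cons a T =>
        have ha := hTM a (by simp)
        rw [Finset.mem_sdiff, hM0, mem_flt] at ha
        have hex : ∃ b ∈ M, R b a := by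
          by_contra hcon
          push Not at hcon
          exact ha.2 ⟨ha.1, hcon⟩
        obtain ⟨b, hbM, hba⟩ := hex
        have h1 := hT (b :: a :: T) (by
          rw [List.pairwise_cons]
          refine ⟨?_, hTR⟩
          intro x hx
          rw [List.mem_cons] at hx
          rcases hx with rfl | hx
          · exact hba
          · rw [List.pairwise_cons] at hTR
            exact htr b hbM a ha.1 x (Finset.mem_sdiff.mp (hTM x (by simp [hx]))).1 hba
              (hTR.1 x hx)) (by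
          intro x hx
          rw [List.mem_cons] at hx
          rcases hx with rfl | hx
          · exact hbM
          · exact (Finset.mem_sdiff.mp (hTM x hx)).1)
        simp only [List.length_cons] at h1 ⊢
        omega)
    have h0 : Col R M0 1 := by
      refine ⟨fun _ => 0, fun _ _ => Nat.zero_lt_one, ?_⟩
      intro p hp q hq hR
      exact absurd hR ((mem_flt.mp hq).2 p (mem_flt.mp hp).1)
    have h1 := hcol.union h0
    rw [Finset.sdiff_union_of_subset (flt_subset _ _)] at h1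
    exact h1

/-- No sorted list of `r` pairwise crossing intervals. -/
def NT (r : ℕ) (M : Finset (ℕ × ℕ)) : Prop :=
  ∀ T : List (ℕ × ℕ), T.Pairwise cr → (∀ p ∈ T, p ∈ M) → T.length < r

lemma NT.subset {r : ℕ} {M M' : Finset (ℕ × ℕ)} (h : NT r M) (hM : M' ⊆ M) : NT r M' :=
  fun T h1 h2 => h T h1 (fun p hp => hM (h2 p hp))

/-- The intervals meeting a common cut split into few stacks. -/
lemma stab_col {r : ℕ} {M : Finset (ℕ × ℕ)} (h : NT (r + 1) M) (x : ℕ)
    (hx : ∀ p ∈ M, p.1 < x ∧ x ≤ p.2) : Col cr M r := by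
  refine mirsky cr r M ?_ ?_
  · intro a ha b hb c hc hab hbc
    have h1 := hx a ha
    have h2 := hx c hc
    unfold cr at *
    omega
  · intro T hT hTM
    have := h T hT hTM
    omega

/-! ### The level lemma -/

section level

variable (M : Finset (ℕ × ℕ))

/-- breadth-first balls in the crossing graph -/
noncomputable def ball (e0 : ℕ × ℕ) : ℕ → Finset (ℕ × ℕ)
  | 0 => {e0}
  | j + 1 => ball e0 j ∪ flt M (fun e => ∃ p ∈ ball e0 j, cr p e ∨ cr e p)

lemma ball_mono (e0 : ℕ × ℕ) {i j : ℕ} (h : i ≤ j) : ball M e0 i ⊆ ball M e0 j := by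
  induction j, h using Nat.le_induction with
  | base => exact Finset.Subset.refl _
  | succ j _ ih => exact ih.trans Finset.subset_union_left

lemma ball_subset (e0 : ℕ × ℕ) (he0 : e0 ∈ M) (j : ℕ) : ball M e0 j ⊆ M := by
  induction j with
  | zero =>
    intro e he
    rw [ball, Finset.mem_singleton] at he
    rw [he]; exact he0
  | succ j ih =>
    rw [ball]
    exact Finset.union_subset ih (flt_subset _ _)

/-- the elements of the component which are at distance exactly `i` -/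
noncomputable def layer (e0 : ℕ × ℕ) (i : ℕ) : Finset (ℕ × ℕ) :=
  flt (ball M e0 i) (fun e => ∀ j < i, e ∉ ball M e0 j)

lemma layer_parent (e0 e : ℕ × ℕ) (i : ℕ) (he : e ∈ layer M e0 (i + 1)) :
    ∃ p ∈ layer M e0 i, cr p e ∨ cr e p := by
  rw [layer, mem_flt, ball, Finset.mem_union] at he
  have h1 := he.1.resolve_left (he.2 i (by omega))
  rw [mem_flt] at h1
  obtain ⟨_, p, hp, hpe⟩ := h1
  refine ⟨p, ?_, hpe⟩
  rw [layer, mem_flt]
  refine ⟨hp, ?_⟩
  intro j hj hpj
  refine he.2 (j + 1) (by omega) ?_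
  rw [ball, Finset.mem_union, mem_flt]
  right
  exact ⟨(mem_flt.mp (by
    have := he.1.resolve_left (he.2 i (by omega))
    exact this)).1, p, hpj, hpe⟩

variable {M}

/-- No endpoint of an element of the ball of radius `i` lies inside an element of layer `i + 2`. -/
lemma no_endpoint (e0 : ℕ × ℕ) (he0 : e0 ∈ M) (hlt : ∀ p ∈ M, p.1 < p.2)
    (hroot : ∀ e ∈ M, e0.1 ≤ e.1) (hroot2 : ∀ e ∈ M, e.1 = e0.1 → e.2 ≤ e0.2)
    (i : ℕ) (e : ℕ × ℕ) (he : e ∈ layer M e0 (i + 2)) :
    ∀ j ≤ i, ∀ k ∈ ball M e0 j, ¬ (e.1 < k.1 ∧ k.1 < e.2) ∧ ¬ (e.1 < k.2 ∧ k.2 < e.2) := by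
  have heb : e ∈ ball M e0 (i + 2) := (mem_flt.mp he).1
  have heM : e ∈ M := ball_subset M e0 he0 _ heb
  have hnot : ∀ j < i + 2, e ∉ ball M e0 j := (mem_flt.mp he).2
  intro j
  induction j with
  | zero =>
    intro _ k hk
    rw [ball, Finset.mem_singleton] at hk
    subst hk
    have h1 := hroot e heM
    have h2 := hroot2 e heM
    have h3 : ¬ cr k e := by
      intro hcr
      refine hnot 1 (by omega) ?_
      rw [ball, Finset.mem_union, mem_flt]
      right
      refine ⟨heM, k, ?_, Or.inl hcr⟩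
      rw [ball, Finset.mem_singleton]
    unfold cr at h3
    omega
  | succ j ih =>
    intro hj k hk
    rw [ball, Finset.mem_union] at hk
    rcases hk with hk | hk
    · exact ih (by omega) k hk
    · rw [mem_flt] at hk
      obtain ⟨hkM, p, hp, hpk⟩ := hk
      have h1 := ih (by omega) p hp
      have h2 : ¬ (cr k e ∨ cr e k) := by
        intro hcr
        refine hnot (j + 2) (by omega) ?_
        rw [ball, Finset.mem_union, mem_flt]
        right
        refine ⟨heM, k, ?_, hcr⟩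
        rw [ball, Finset.mem_union, mem_flt]
        right
        exact ⟨hkM, p, hp, hpk⟩
      have h3 := hlt k hkM
      have h4 := hlt e heM
      unfold cr at h2 hpk
      omega

lemma exists_endpoint_between {k p : ℕ × ℕ} (hk : cr k p ∨ cr p k) :
    ∃ w, (w = k.1 ∨ w = k.2) ∧ p.1 < w ∧ w < p.2 := by
  unfold cr at hk
  rcases hk with h | h
  · exact ⟨k.2, Or.inr rfl, by omega, by omega⟩
  · exact ⟨k.1, Or.inl rfl, by omega, by omega⟩

variable (M)

/-- right-exiting family -/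
noncomputable def Rz (z : ℕ) : Finset (ℕ × ℕ) :=
  flt M (fun e => e.2 ≤ z ∧ ∃ p ∈ M, e.1 < p.1 ∧ p.1 < e.2 ∧ z < p.2)

/-- left-exiting family -/
noncomputable def Lz (z : ℕ) : Finset (ℕ × ℕ) :=
  flt M (fun e => z ≤ e.1 ∧ ∃ p ∈ M, e.1 < p.2 ∧ p.2 < e.2 ∧ p.1 < z)

variable {M}

lemma Rz_subset {M' : Finset (ℕ × ℕ)} (h : M' ⊆ M) (z : ℕ) : Rz M' z ⊆ Rz M z := by
  intro e he
  rw [Rz, mem_flt] at he ⊢
  obtain ⟨h1, h2, p, h3, h4⟩ := he
  exact ⟨h h1, h2, p, h h3, h4⟩

lemma Lz_subset {M' : Finset (ℕ × ℕ)} (h : M' ⊆ M) (z : ℕ) : Lz M' z ⊆ Lz M z := by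
  intro e he
  rw [Lz, mem_flt] at he ⊢
  obtain ⟨h1, h2, p, h3, h4⟩ := he
  exact ⟨h h1, h2, p, h h3, h4⟩

/-- One layer splits into few stacks. -/
lemma layer_col (e0 : ℕ × ℕ) (he0 : e0 ∈ M) (hlt : ∀ p ∈ M, p.1 < p.2)
    (hroot : ∀ e ∈ M, e0.1 ≤ e.1) (hroot2 : ∀ e ∈ M, e.1 = e0.1 → e.2 ≤ e0.2) (c : ℕ)
    (hR : ∀ z, Col cr (Rz M z) c) (hL : ∀ z, Col cr (Lz M z) c) (i : ℕ) :
    Col cr (layer M e0 (i + 2)) (c + c) := by
  set W : Set ℕ := {w | ∃ k ∈ ball M e0 i, w = k.1 ∨ w = k.2} with hW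
  have hno : ∀ e ∈ layer M e0 (i + 2), ∀ w ∈ W, ¬ (e.1 < w ∧ w < e.2) := by
    intro e he w hw
    obtain ⟨k, hk, hw⟩ := hw
    have := no_endpoint e0 he0 hlt hroot hroot2 i e he i le_rfl k hk
    rcases hw with rfl | rfl
    · exact this.1
    · exact this.2
  have hsub : ∀ j, ∀ e ∈ layer M e0 j, e ∈ M := fun j e he =>
    ball_subset M e0 he0 _ (mem_flt.mp he).1
  -- right
  set LR := flt (layer M e0 (i + 2)) (fun e => ∃ p ∈ layer M e0 (i + 1), cr e p) with hLR
  have hcolR : Col cr LR c := by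
    choose cR hcR1 hcR2 using hR
    set zr : ℕ × ℕ → ℕ := fun e => sInf {w | w ∈ W ∧ e.2 ≤ w} with hzr
    have hspec : ∀ e ∈ LR, zr e ∈ W ∧ e.2 ≤ zr e ∧ e ∈ Rz M (zr e) := by
      intro e he
      rw [hLR, mem_flt] at he
      obtain ⟨he, p, hp, hep⟩ := he
      obtain ⟨k, hk, hkp⟩ := layer_parent M e0 p i hp
      obtain ⟨w, hw, hw1, hw2⟩ := exists_endpoint_between hkp
      have hwW : w ∈ W := ⟨k, (mem_flt.mp hk).1, hw⟩
      have h1 := hno e he w hwW
      have hwe : e.2 ≤ w := by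
        unfold cr at hep
        omega
      have hmem : zr e ∈ {w | w ∈ W ∧ e.2 ≤ w} := Nat.sInf_mem ⟨w, hwW, hwe⟩
      have hle : zr e ≤ w := Nat.sInf_le ⟨hwW, hwe⟩
      refine ⟨hmem.1, hmem.2, ?_⟩
      rw [Rz, mem_flt]
      refine ⟨hsub _ e he, hmem.2, p, hsub _ p hp, ?_⟩
      unfold cr at hep
      omega
    refine ⟨fun e => cR (zr e) e, ?_, ?_⟩
    · intro e he
      exact hcR1 (zr e) e (hspec e he).2.2
    · intro e he f hf hef
      have h1 := hspec e he
      have h2 := hspec f hf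
      have h3 := hno f (mem_flt.mp hf).1 (zr e) h1.1
      have hcr := hef
      unfold cr at hef
      have h4 : zr f ≤ zr e := Nat.sInf_le ⟨h1.1, by omega⟩
      have h5 : zr e ≤ zr f := Nat.sInf_le ⟨h2.1, by omega⟩
      have h6 : zr f = zr e := le_antisymm h4 h5
      show cR (zr e) e ≠ cR (zr f) f
      rw [h6]
      exact hcR2 (zr e) e h1.2.2 f (by rw [← h6]; exact h2.2.2) hcr
  -- left
  set LL := flt (layer M e0 (i + 2)) (fun e => ∃ p ∈ layer M e0 (i + 1), cr p e) with hLL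
  have hcolL : Col cr LL c := by
    choose cL hcL1 hcL2 using hL
    set zl : ℕ × ℕ → ℕ := fun e => sSup {w | w ∈ W ∧ w ≤ e.1} with hzl
    have hbdd : ∀ e : ℕ × ℕ, BddAbove {w | w ∈ W ∧ w ≤ e.1} := fun e => ⟨e.1, fun w hw => hw.2⟩
    have hspec : ∀ e ∈ LL, zl e ∈ W ∧ zl e ≤ e.1 ∧ e ∈ Lz M (zl e) := by
      intro e he
      rw [hLL, mem_flt] at he
      obtain ⟨he, p, hp, hep⟩ := he
      obtain ⟨k, hk, hkp⟩ := layer_parent M e0 p i hp
      obtain ⟨w, hw, hw1, hw2⟩ := exists_endpoint_between hkp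
      have hwW : w ∈ W := ⟨k, (mem_flt.mp hk).1, hw⟩
      have h1 := hno e he w hwW
      have hwe : w ≤ e.1 := by
        unfold cr at hep
        omega
      have hmem : zl e ∈ {w | w ∈ W ∧ w ≤ e.1} := Nat.sSup_mem ⟨w, hwW, hwe⟩ (hbdd e)
      have hle : w ≤ zl e := le_csSup (hbdd e) ⟨hwW, hwe⟩
      refine ⟨hmem.1, hmem.2, ?_⟩
      rw [Lz, mem_flt]
      refine ⟨hsub _ e he, hmem.2, p, hsub _ p hp, ?_⟩
      unfold cr at hep
      omega
    refine ⟨fun e => cL (zl e) e, ?_, ?_⟩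
    · intro e he
      exact hcL1 (zl e) e (hspec e he).2.2
    · intro e he f hf hef
      have h1 := hspec e he
      have h2 := hspec f hf
      have h3 := hno e (mem_flt.mp he).1 (zl f) h2.1
      have hcr := hef
      unfold cr at hef
      have h4 : zl f ≤ zl e := le_csSup (hbdd e) ⟨h2.1, by omega⟩
      have h5 : zl e ≤ zl f := le_csSup (hbdd f) ⟨h1.1, by omega⟩
      have h6 : zl f = zl e := le_antisymm h4 h5
      show cL (zl e) e ≠ cL (zl f) f
      rw [h6]
      exact hcL2 (zl e) e h1.2.2 f (by rw [← h6]; exact h2.2.2) hcr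
  refine (hcolR.union hcolL).subset ?_
  intro e he
  rw [Finset.mem_union, hLR, hLL, mem_flt, mem_flt]
  obtain ⟨p, hp, h⟩ := layer_parent M e0 e (i + 1) he
  rcases h with h | h
  · exact Or.inr ⟨he, p, hp, h⟩
  · exact Or.inl ⟨he, p, hp, h⟩

/-- The component of the root splits into few stacks. -/
lemma comp_col (e0 : ℕ × ℕ) (he0 : e0 ∈ M) (hlt : ∀ p ∈ M, p.1 < p.2)
    (hroot : ∀ e ∈ M, e0.1 ≤ e.1) (hroot2 : ∀ e ∈ M, e.1 = e0.1 → e.2 ≤ e0.2) (c c' : ℕ)
    (hR : ∀ z, Col cr (Rz M z) c) (hL : ∀ z, Col cr (Lz M z) c)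
    (hS : ∀ z, Col cr (flt M (fun e => e.1 < z ∧ z ≤ e.2)) c')
    (comp : Finset (ℕ × ℕ)) (hcomp : ∀ e ∈ comp, ∃ i, e ∈ ball M e0 i) :
    Col cr comp (2 * (c + c + c' + 1)) := by
  classical
  have hlayer : ∀ i, Col cr (layer M e0 i) (c + c + c' + 1) := by
    intro i
    match i with
    | 0 =>
      refine (Col.mono ?_ (show 1 ≤ c + c + c' + 1 by omega))
      refine ⟨fun _ => 0, fun _ _ => Nat.zero_lt_one, ?_⟩
      intro p hp q hq hpq
      rw [layer, mem_flt, ball, Finset.mem_singleton] at hp hq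
      rw [hp.1, hq.1] at hpq
      unfold cr at hpq
      omega
    | 1 =>
      refine (Col.mono ((hS e0.2).subset ?_) (show c' ≤ c + c + c' + 1 by omega))
      intro e he
      obtain ⟨p, hp, hpe⟩ := layer_parent M e0 e 0 he
      rw [layer, mem_flt, ball, Finset.mem_singleton] at hp
      rw [hp.1] at hpe
      have heM : e ∈ M := ball_subset M e0 he0 _ (mem_flt.mp he).1
      have := hroot e heM
      rw [mem_flt]
      refine ⟨heM, ?_⟩
      unfold cr at hpe
      omega
    | i + 2 =>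
      exact (layer_col e0 he0 hlt hroot hroot2 c hR hL i).mono (by omega)
  choose cl hcl1 hcl2 using hlayer
  have hlv : ∀ e : ℕ × ℕ, ∃ i, (∃ j, e ∈ ball M e0 j) → e ∈ layer M e0 i := by
    intro e
    by_cases h : ∃ j, e ∈ ball M e0 j
    · refine ⟨Nat.find h, fun _ => ?_⟩
      rw [layer, mem_flt]
      exact ⟨Nat.find_spec h, fun j hj => Nat.find_min h hj⟩
    · exact ⟨0, fun h' => absurd h' h⟩
  choose lv hlv using hlv
  have hadj : ∀ e ∈ comp, ∀ f ∈ comp, (cr e f ∨ cr f e) → lv f ≤ lv e + 1 := by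
    intro e he f hf hef
    by_contra hcon
    push Not at hcon
    have h1 := hlv e (hcomp e he)
    have h2 := hlv f (hcomp f hf)
    rw [layer, mem_flt] at h1 h2
    refine h2.2 (lv e + 1) hcon ?_
    rw [ball, Finset.mem_union, mem_flt]
    right
    exact ⟨ball_subset M e0 he0 _ h2.1, e, h1.1, hef⟩
  refine ⟨fun e => 2 * cl (lv e) e + lv e % 2, ?_, ?_⟩
  · intro e he
    have := hcl1 (lv e) e (hlv e (hcomp e he))
    show 2 * cl (lv e) e + lv e % 2 < _
    omega
  · intro e he f hf hef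
    show 2 * cl (lv e) e + lv e % 2 ≠ 2 * cl (lv f) f + lv f % 2
    have h1 := hadj e he f hf (Or.inl hef)
    have h2 := hadj f hf e he (Or.inr hef)
    by_cases hlvef : lv e = lv f
    · have h3 := hcl2 (lv e) e (hlv e (hcomp e he)) f (by
        rw [hlvef]; exact hlv f (hcomp f hf)) hef
      rw [← hlvef]
      omega
    · omega

/-- The level lemma. -/
lemma level_lemma (c c' : ℕ) : ∀ M : Finset (ℕ × ℕ), (∀ p ∈ M, p.1 < p.2) →
    (∀ z, Col cr (Rz M z) c) → (∀ z, Col cr (Lz M z) c) →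
    (∀ z, Col cr (flt M (fun e => e.1 < z ∧ z ≤ e.2)) c') →
    Col cr M (2 * (c + c + c' + 1)) := by
  classical
  intro M
  induction M using Finset.strongInduction with
  | H M ih =>
  intro hlt hR hL hS
  rcases M.eq_empty_or_nonempty with rfl | hne
  · exact ⟨fun _ => 0, by simp, by simp⟩
  -- the root
  obtain ⟨a, haM, ha⟩ := Finset.exists_min_image M (fun e => e.1) hne
  obtain ⟨e0, he0, hmax⟩ := Finset.exists_max_image (flt M (fun e => e.1 = a.1))
    (fun e => e.2) ⟨a, mem_flt.mpr ⟨haM, rfl⟩⟩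
  rw [mem_flt] at he0
  have hroot : ∀ e ∈ M, e0.1 ≤ e.1 := fun e he => by rw [he0.2]; exact ha e he
  have hroot2 : ∀ e ∈ M, e.1 = e0.1 → e.2 ≤ e0.2 := fun e he h =>
    hmax e (mem_flt.mpr ⟨he, by rw [h, he0.2]⟩)
  set comp := flt M (fun e => ∃ i, e ∈ ball M e0 i) with hcomp
  have h1 := comp_col e0 he0.1 hlt hroot hroot2 c c' hR hL hS comp
    (fun e he => (mem_flt.mp he).2)
  have he0c : e0 ∈ comp := by
    rw [hcomp, mem_flt]
    exact ⟨he0.1, 0, by rw [ball, Finset.mem_singleton]⟩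
  have hss : M \ comp ⊂ M := Finset.sdiff_ssubset (flt_subset _ _) ⟨e0, he0c⟩
  have h2 := ih (M \ comp) hss (fun p hp => hlt p (Finset.mem_sdiff.mp hp).1)
    (fun z => (hR z).subset (Rz_subset Finset.sdiff_subset z))
    (fun z => (hL z).subset (Lz_subset Finset.sdiff_subset z))
    (fun z => (hS z).subset (flt_mono Finset.sdiff_subset _))
  obtain ⟨c1, h11, h12⟩ := h1
  obtain ⟨c2, h21, h22⟩ := h2
  have hcross : ∀ e ∈ comp, ∀ f ∈ M, (cr e f ∨ cr f e) → f ∈ comp := by
    intro e he f hf hef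
    rw [hcomp, mem_flt] at he ⊢
    obtain ⟨_, i, hi⟩ := he
    refine ⟨hf, i + 1, ?_⟩
    rw [ball, Finset.mem_union, mem_flt]
    exact Or.inr ⟨hf, e, hi, hef⟩
  refine ⟨fun e => if e ∈ comp then c1 e else c2 e, ?_, ?_⟩
  · intro e he
    show (if e ∈ comp then c1 e else c2 e) < _
    by_cases h : e ∈ comp
    · rw [if_pos h]; exact h11 e h
    · rw [if_neg h]; exact h21 e (Finset.mem_sdiff.mpr ⟨he, h⟩)
  · intro e he f hf hef
    show (if e ∈ comp then c1 e else c2 e) ≠ (if f ∈ comp then c1 f else c2 f)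
    by_cases h : e ∈ comp
    · have h' := hcross e h f hf (Or.inl hef)
      rw [if_pos h, if_pos h']
      exact h12 e h f h' hef
    · have h' : f ∉ comp := fun h' => h (hcross f h' e he (Or.inr hef))
      rw [if_neg h, if_neg h']
      exact h22 e (Finset.mem_sdiff.mpr ⟨he, h⟩) f (Finset.mem_sdiff.mpr ⟨hf, h'⟩) hef

end level

/-! ### Greedy stabbing -/

lemma exists_idx : ∀ M : Finset (ℕ × ℕ), (∀ p ∈ M, p.1 < p.2) → ∃ idx : ℕ × ℕ → ℕ,
    (∀ e ∈ M, ∀ f ∈ M, e.1 ≤ f.1 → idx e ≤ idx f) ∧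
    (∀ i, ∃ x, ∀ e ∈ M, idx e = i → e.1 < x ∧ x ≤ e.2) ∧
    (∀ f ∈ M, ∃ gs : List (ℕ × ℕ), gs.length = idx f ∧
      gs.Pairwise (fun a b => a.2 ≤ b.1) ∧ ∀ g ∈ gs, g ∈ M ∧ g.2 ≤ f.1) ∧
    (∀ e ∈ M, ∀ f ∈ M, idx e < idx f → ∃ gs : List (ℕ × ℕ), gs.length + idx e + 1 = idx f ∧
      gs.Pairwise (fun a b => a.2 ≤ b.1) ∧ ∀ g ∈ gs, g ∈ M ∧ e.1 ≤ g.1 ∧ g.2 ≤ f.1) := by
  intro M
  induction M using Finset.strongInduction with
  | H M ih =>
  intro hlt
  rcases M.eq_empty_or_nonempty with rfl | hne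
  · exact ⟨fun _ => 0, by simp, fun i => ⟨0, by simp⟩, by simp, by simp⟩
  obtain ⟨J, hJ, hJmin⟩ := Finset.exists_min_image M (fun e => e.2) hne
  set M' := flt M (fun e => J.2 ≤ e.1) with hM'
  have hsub : M' ⊆ M := flt_subset _ _
  have hss : M' ⊂ M := by
    refine (Finset.ssubset_iff_of_subset hsub).mpr ⟨J, hJ, ?_⟩
    rw [hM', mem_flt]
    have := hlt J hJ
    omega
  obtain ⟨idx, h1, h2, h3, h4⟩ := ih M' hss (fun p hp => hlt p (hsub hp))
  have hmem : ∀ e ∈ M, ¬ e.1 < J.2 → e ∈ M' := by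
    intro e he h
    rw [hM', mem_flt]
    exact ⟨he, by omega⟩
  refine ⟨fun e => if e.1 < J.2 then 0 else idx e + 1, ?_, ?_, ?_, ?_⟩
  · intro e he f hf hef
    show (if e.1 < J.2 then 0 else idx e + 1) ≤ (if f.1 < J.2 then 0 else idx f + 1)
    by_cases hf' : f.1 < J.2
    · rw [if_pos hf', if_pos (by omega)]
    · rw [if_neg hf']
      by_cases he' : e.1 < J.2
      · rw [if_pos he']; omega
      · rw [if_neg he']
        have := h1 e (hmem e he he') f (hmem f hf hf') hef
        omega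
  · intro i
    match i with
    | 0 =>
      refine ⟨J.2, ?_⟩
      intro e he h
      have h' : (if e.1 < J.2 then 0 else idx e + 1) = 0 := h
      by_cases he' : e.1 < J.2
      · exact ⟨he', hJmin e he⟩
      · rw [if_neg he'] at h'; omega
    | i + 1 =>
      obtain ⟨x, hx⟩ := h2 i
      refine ⟨x, ?_⟩
      intro e he h
      have h' : (if e.1 < J.2 then 0 else idx e + 1) = i + 1 := h
      by_cases he' : e.1 < J.2
      · rw [if_pos he'] at h'; omega
      · rw [if_neg he'] at h'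
        exact hx e (hmem e he he') (by omega)
  · intro f hf
    show ∃ gs : List (ℕ × ℕ), gs.length = (if f.1 < J.2 then 0 else idx f + 1) ∧
      gs.Pairwise (fun a b => a.2 ≤ b.1) ∧ ∀ g ∈ gs, g ∈ M ∧ g.2 ≤ f.1
    by_cases hf' : f.1 < J.2
    · rw [if_pos hf']
      exact ⟨[], rfl, by simp, by simp⟩
    · rw [if_neg hf']
      obtain ⟨gs, hgs1, hgs2, hgs3⟩ := h3 f (hmem f hf hf')
      refine ⟨J :: gs, ?_, ?_, ?_⟩
      · rw [List.length_cons, hgs1]
      · rw [List.pairwise_cons]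
        refine ⟨?_, hgs2⟩
        intro g hg
        exact (mem_flt.mp (hgs3 g hg).1).2
      · intro g hg
        rw [List.mem_cons] at hg
        rcases hg with rfl | hg
        · exact ⟨hJ, by omega⟩
        · exact ⟨hsub (hgs3 g hg).1, (hgs3 g hg).2⟩
  · intro e he f hf hef
    have hef' : (if e.1 < J.2 then 0 else idx e + 1) < (if f.1 < J.2 then 0 else idx f + 1) := hef
    show ∃ gs : List (ℕ × ℕ), gs.length + (if e.1 < J.2 then 0 else idx e + 1) + 1
      = (if f.1 < J.2 then 0 else idx f + 1) ∧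
      gs.Pairwise (fun a b => a.2 ≤ b.1) ∧ ∀ g ∈ gs, g ∈ M ∧ e.1 ≤ g.1 ∧ g.2 ≤ f.1
    by_cases hf' : f.1 < J.2
    · rw [if_pos hf'] at hef'; omega
    · rw [if_neg hf'] at hef' ⊢
      by_cases he' : e.1 < J.2
      · rw [if_pos he']
        obtain ⟨gs, hgs1, hgs2, hgs3⟩ := h3 f (hmem f hf hf')
        refine ⟨gs, by omega, hgs2, ?_⟩
        intro g hg
        have h5 := (mem_flt.mp (hgs3 g hg).1)
        exact ⟨h5.1, by omega, (hgs3 g hg).2⟩
      · rw [if_neg he'] at hef' ⊢
        obtain ⟨gs, hgs1, hgs2, hgs3⟩ := h4 e (hmem e he he') f (hmem f hf hf') (by omega)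
        refine ⟨gs, by omega, hgs2, ?_⟩
        intro g hg
        exact ⟨hsub (hgs3 g hg).1, (hgs3 g hg).2⟩

/-- If no member of `M` contains `m` pairwise disjoint members, then `M` splits into few stacks. -/
lemma nest_or_col {r : ℕ} {M : Finset (ℕ × ℕ)} (hlt : ∀ p ∈ M, p.1 < p.2) (hNT : NT (r + 1) M)
    (m : ℕ) (hno : ∀ e ∈ M, ∀ gs : List (ℕ × ℕ), gs.length = m →
      gs.Pairwise (fun a b => a.2 ≤ b.1) → (∀ g ∈ gs, g ∈ M ∧ e.1 ≤ g.1 ∧ g.2 ≤ e.2) → False) :
    Col cr M ((m + 1) * r) := by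
  obtain ⟨idx, h1, h2, h3, h4⟩ := exists_idx M hlt
  have hcls : ∀ i, Col cr (flt M (fun e => idx e = i)) r := by
    intro i
    obtain ⟨x, hx⟩ := h2 i
    exact stab_col (hNT.subset (flt_subset _ _)) x
      (fun p hp => hx p (mem_flt.mp hp).1 (mem_flt.mp hp).2)
  choose c hc1 hc2 using hcls
  have hcl : ∀ e ∈ M, c (idx e) e < r := fun e he => hc1 (idx e) e (mem_flt.mpr ⟨he, rfl⟩)
  refine ⟨fun e => idx e % (m + 1) * r + c (idx e) e, ?_, ?_⟩
  · intro e he
    have ha : idx e % (m + 1) < m + 1 := Nat.mod_lt _ (by omega)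
    have hb := hcl e he
    show idx e % (m + 1) * r + c (idx e) e < (m + 1) * r
    calc idx e % (m + 1) * r + c (idx e) e < idx e % (m + 1) * r + r := by omega
      _ = (idx e % (m + 1) + 1) * r := by ring
      _ ≤ (m + 1) * r := Nat.mul_le_mul_right _ (by omega)
  · intro e he f hf hef
    show idx e % (m + 1) * r + c (idx e) e ≠ idx f % (m + 1) * r + c (idx f) f
    have hle := h1 e he f hf (by unfold cr at hef; omega)
    have hb := hcl e he
    have hb' := hcl f hf
    have hr : 0 < r := by omega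
    rcases Nat.eq_or_lt_of_le hle with heq | hlt'
    · have := hc2 (idx e) e (mem_flt.mpr ⟨he, rfl⟩) f (mem_flt.mpr ⟨hf, heq.symm⟩) hef
      rw [← heq]
      omega
    · obtain ⟨gs, hgs1, hgs2, hgs3⟩ := h4 e he f hf hlt'
      have hlen : gs.length < m := by
        by_contra hcon
        push Not at hcon
        refine hno e he (gs.take m) ?_ ?_ ?_
        · rw [List.length_take, min_eq_left hcon]
        · exact hgs2.sublist (List.take_sublist _ _)
        · intro g hg
          have hg' := hgs3 g (List.mem_of_mem_take hg)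
          refine ⟨hg'.1, hg'.2.1, ?_⟩
          have : f.1 < e.2 := by unfold cr at hef; omega
          omega
      have hmod : idx e % (m + 1) ≠ idx f % (m + 1) := by
        intro hmod
        have h5 : (m + 1) ∣ (idx f - idx e) := (Nat.modEq_iff_dvd' hlt'.le).mp hmod
        have h6 := Nat.le_of_dvd (by omega) h5
        omega
      intro heq
      have h7 : (idx e % (m + 1) * r + c (idx e) e) / r = (idx f % (m + 1) * r + c (idx f) f) / r := by
        rw [heq]
      rw [Nat.mul_comm (idx e % (m + 1)) r, Nat.mul_comm (idx f % (m + 1)) r,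
        Nat.mul_add_div hr, Nat.mul_add_div hr, Nat.div_eq_of_lt hb, Nat.div_eq_of_lt hb'] at h7
      omega

/-! ### Towers -/

/-- `m` levels exiting to the right. -/
def Phi (A : Finset (ℕ × ℕ)) (m : ℕ) (M : Finset (ℕ × ℕ)) : Prop :=
  ∀ gs : List (ℕ × ℕ), gs.length = m → gs.Pairwise (fun a b => a.2 ≤ b.1) → (∀ g ∈ gs, g ∈ M) →
    ∃ ps : List (ℕ × ℕ), ps.length = m ∧ ps.Pairwise cr ∧ (∀ p ∈ ps, p ∈ A) ∧
      (∀ p ∈ ps, ∃ g ∈ gs, g.1 < p.1 ∧ p.1 < g.2) ∧ (∀ p ∈ ps, ∀ e ∈ M, e.2 < p.2)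

/-- `m` levels exiting to the left. -/
def Psi (A : Finset (ℕ × ℕ)) (m : ℕ) (M : Finset (ℕ × ℕ)) : Prop :=
  ∀ gs : List (ℕ × ℕ), gs.length = m → gs.Pairwise (fun a b => b.2 ≤ a.1) → (∀ g ∈ gs, g ∈ M) →
    ∃ ps : List (ℕ × ℕ), ps.length = m ∧ ps.Pairwise (fun a b => cr b a) ∧ (∀ p ∈ ps, p ∈ A) ∧
      (∀ p ∈ ps, ∃ g ∈ gs, g.1 < p.2 ∧ p.2 < g.2) ∧ (∀ p ∈ ps, ∀ e ∈ M, p.1 < e.1)

lemma Phi.subset {A M M' : Finset (ℕ × ℕ)} {m : ℕ} (h : Phi A m M) (hM : M' ⊆ M) :
    Phi A m M' := by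
  intro gs h1 h2 h3
  obtain ⟨ps, a1, a2, a3, a4, a5⟩ := h gs h1 h2 (fun g hg => hM (h3 g hg))
  exact ⟨ps, a1, a2, a3, a4, fun p hp e he => a5 p hp e (hM he)⟩

lemma Psi.subset {A M M' : Finset (ℕ × ℕ)} {m : ℕ} (h : Psi A m M) (hM : M' ⊆ M) :
    Psi A m M' := by
  intro gs h1 h2 h3
  obtain ⟨ps, a1, a2, a3, a4, a5⟩ := h gs h1 h2 (fun g hg => hM (h3 g hg))
  exact ⟨ps, a1, a2, a3, a4, fun p hp e he => a5 p hp e (hM he)⟩

lemma Phi.step {A M : Finset (ℕ × ℕ)} {m : ℕ} (h : Phi A m M) (hM : M ⊆ A) (z : ℕ) :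
    Phi A (m + 1) (Rz M z) := by
  intro gs hlen hpw hmem
  match gs with
  | [] => simp at hlen
  | g :: gs =>
    rw [List.pairwise_cons] at hpw
    have hg : ∀ g' ∈ g :: gs, g' ∈ M ∧ g'.2 ≤ z ∧
        ∃ p ∈ M, g'.1 < p.1 ∧ p.1 < g'.2 ∧ z < p.2 := fun g' hg' => mem_flt.mp (hmem g' hg')
    obtain ⟨ps, a1, a2, a3, a4, a5⟩ := h gs (by simpa using hlen) hpw.2
      (fun g' hg' => (hg g' (List.mem_cons_of_mem _ hg')).1)
    obtain ⟨hgM, hgz, p, hpM, hp1, hp2, hp3⟩ := hg g List.mem_cons_self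
    refine ⟨p :: ps, by simp [a1], ?_, ?_, ?_, ?_⟩
    · rw [List.pairwise_cons]
      refine ⟨?_, a2⟩
      intro q hq
      obtain ⟨g', hg', b1, b2⟩ := a4 q hq
      have b3 := hpw.1 g' hg'
      have b4 := (hg g' (List.mem_cons_of_mem _ hg')).2.1
      have b5 := a5 q hq p hpM
      unfold cr
      omega
    · intro q hq
      rw [List.mem_cons] at hq
      rcases hq with rfl | hq
      · exact hM hpM
      · exact a3 q hq
    · intro q hq
      rw [List.mem_cons] at hq
      rcases hq with rfl | hq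
      · exact ⟨g, List.mem_cons_self, hp1, hp2⟩
      · obtain ⟨g', hg', b⟩ := a4 q hq
        exact ⟨g', List.mem_cons_of_mem _ hg', b⟩
    · intro q hq e he
      have he' := mem_flt.mp he
      rw [List.mem_cons] at hq
      rcases hq with rfl | hq
      · exact lt_of_le_of_lt he'.2.1 hp3
      · exact a5 q hq e he'.1

lemma Psi.step {A M : Finset (ℕ × ℕ)} {m : ℕ} (h : Psi A m M) (hM : M ⊆ A) (z : ℕ) :
    Psi A (m + 1) (Lz M z) := by
  intro gs hlen hpw hmem
  match gs with
  | [] => simp at hlen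
  | g :: gs =>
    rw [List.pairwise_cons] at hpw
    have hg : ∀ g' ∈ g :: gs, g' ∈ M ∧ z ≤ g'.1 ∧
        ∃ p ∈ M, g'.1 < p.2 ∧ p.2 < g'.2 ∧ p.1 < z := fun g' hg' => mem_flt.mp (hmem g' hg')
    obtain ⟨ps, a1, a2, a3, a4, a5⟩ := h gs (by simpa using hlen) hpw.2
      (fun g' hg' => (hg g' (List.mem_cons_of_mem _ hg')).1)
    obtain ⟨hgM, hgz, p, hpM, hp1, hp2, hp3⟩ := hg g List.mem_cons_self
    refine ⟨p :: ps, by simp [a1], ?_, ?_, ?_, ?_⟩
    · rw [List.pairwise_cons]
      refine ⟨?_, a2⟩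
      intro q hq
      obtain ⟨g', hg', b1, b2⟩ := a4 q hq
      have b3 := hpw.1 g' hg'
      have b4 := (hg g' (List.mem_cons_of_mem _ hg')).2.1
      have b5 := a5 q hq p hpM
      unfold cr
      omega
    · intro q hq
      rw [List.mem_cons] at hq
      rcases hq with rfl | hq
      · exact hM hpM
      · exact a3 q hq
    · intro q hq
      rw [List.mem_cons] at hq
      rcases hq with rfl | hq
      · exact ⟨g, List.mem_cons_self, hp1, hp2⟩
      · obtain ⟨g', hg', b⟩ := a4 q hq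
        exact ⟨g', List.mem_cons_of_mem _ hg', b⟩
    · intro q hq e he
      have he' := mem_flt.mp he
      rw [List.mem_cons] at hq
      rcases hq with rfl | hq
      · exact lt_of_lt_of_le hp3 he'.2.1
      · exact a5 q hq e he'.1

lemma phi_final {A M : Finset (ℕ × ℕ)} {m : ℕ} (hlt : ∀ p ∈ A, p.1 < p.2) (hA : NT (m + 1) A)
    (hM : M ⊆ A) (h : Phi A m M) : Col cr M ((m + 1) * m) := by
  refine nest_or_col (fun p hp => hlt p (hM hp)) (hA.subset hM) m ?_
  intro e he gs hlen hpw hgs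
  obtain ⟨ps, a1, a2, a3, a4, a5⟩ := h gs hlen hpw (fun g hg => (hgs g hg).1)
  have := hA (e :: ps) (by
    rw [List.pairwise_cons]
    refine ⟨?_, a2⟩
    intro p hp
    obtain ⟨g, hg, b1, b2⟩ := a4 p hp
    have b3 := (hgs g hg).2
    have b4 := a5 p hp e he
    unfold cr
    omega) (by
    intro q hq
    rw [List.mem_cons] at hq
    rcases hq with rfl | hq
    · exact hM he
    · exact a3 q hq)
  rw [List.length_cons, a1] at this
  omega

lemma psi_final {A M : Finset (ℕ × ℕ)} {m : ℕ} (hlt : ∀ p ∈ A, p.1 < p.2) (hA : NT (m + 1) A)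
    (hM : M ⊆ A) (h : Psi A m M) : Col cr M ((m + 1) * m) := by
  refine nest_or_col (fun p hp => hlt p (hM hp)) (hA.subset hM) m ?_
  intro e he gs hlen hpw hgs
  obtain ⟨ps, a1, a2, a3, a4, a5⟩ := h gs.reverse (by rw [List.length_reverse, hlen])
    (by rw [List.pairwise_reverse]; exact hpw)
    (fun g hg => (hgs g (List.mem_reverse.mp hg)).1)
  have := hA (e :: ps).reverse (by
    rw [List.pairwise_reverse, List.pairwise_cons]
    refine ⟨?_, a2⟩
    intro p hp
    obtain ⟨g, hg, b1, b2⟩ := a4 p hp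
    have b3 := (hgs g (List.mem_reverse.mp hg)).2
    have b4 := a5 p hp e he
    unfold cr
    omega) (by
    intro q hq
    rw [List.mem_reverse, List.mem_cons] at hq
    rcases hq with rfl | hq
    · exact hM he
    · exact a3 q hq)
  rw [List.length_reverse, List.length_cons, a1] at this
  omega

/-- The bound of the tower recursion. -/
def hb (m : ℕ) : ℕ → ℕ
  | 0 => (m + 1) * m
  | t + 1 => 2 * (hb m t + hb m t + m + 1)

lemma hb_ge (m t : ℕ) : (m + 1) * m ≤ hb m t := by
  induction t with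
  | zero => exact le_rfl
  | succ t ih => rw [hb]; omega

lemma tower {A : Finset (ℕ × ℕ)} {m : ℕ} (hlt : ∀ p ∈ A, p.1 < p.2) (hA : NT (m + 1) A) :
    ∀ t a b : ℕ, ∀ M : Finset (ℕ × ℕ), M ⊆ A → a ≤ m → b ≤ m → (m - a) + (m - b) = t →
      Phi A a M → Psi A b M → Col cr M (hb m t) := by
  intro t
  induction t with
  | zero =>
    intro a b M hM ha hb' hab hPhi _
    have : a = m := by omega
    rw [this] at hPhi
    exact phi_final hlt hA hM hPhi
  | succ t ih =>
    intro a b M hM ha hb' hab hPhi hPsi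
    by_cases ham : a = m
    · rw [ham] at hPhi
      exact (phi_final hlt hA hM hPhi).mono (hb_ge m _)
    by_cases hbm : b = m
    · rw [hbm] at hPsi
      exact (psi_final hlt hA hM hPsi).mono (hb_ge m _)
    have hR : ∀ z, Col cr (Rz M z) (hb m t) := by
      intro z
      have hs : Rz M z ⊆ M := flt_subset _ _
      exact ih (a + 1) b (Rz M z) (hs.trans hM) (by omega) hb' (by omega) (hPhi.step hM z)
        (hPsi.subset hs)
    have hL : ∀ z, Col cr (Lz M z) (hb m t) := by
      intro z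
      have hs : Lz M z ⊆ M := flt_subset _ _
      exact ih a (b + 1) (Lz M z) (hs.trans hM) ha (by omega) (by omega) (hPhi.subset hs)
        (hPsi.step hM z)
    have hS : ∀ z, Col cr (flt M (fun e => e.1 < z ∧ z ≤ e.2)) m := by
      intro z
      exact stab_col (hA.subset ((flt_subset _ _).trans hM)) z (fun p hp => (mem_flt.mp hp).2)
    exact level_lemma (hb m t) m M (fun p hp => hlt p (hM hp)) hR hL hS

/-- **Circle graphs are `χ`-bounded**: a finite family of intervals without `m + 1` pairwise crossing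
members splits into boundedly many families without crossing members. -/
theorem circle_chi {A : Finset (ℕ × ℕ)} {m : ℕ} (hlt : ∀ p ∈ A, p.1 < p.2) (hA : NT (m + 1) A) :
    Col cr A (hb m (m + m)) := by
  refine tower hlt hA (m + m) 0 0 A (Finset.Subset.refl _) (by omega) (by omega) (by omega) ?_ ?_
  · intro gs hlen _ _
    refine ⟨[], rfl, by simp, by simp, by simp, by simp⟩
  · intro gs hlen _ _
    refine ⟨[], rfl, by simp, by simp, by simp, by simp⟩

end Pool.Agent.H66.Circle
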