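import Mathlib
import Pool.Agent.H66.CircleChi

/-!
# A local-to-global theorem for mixed layouts

An edge set is `Valid r s` if it is a union of a set without `r`-twists and a set without
`s`-rainbows. If all small subsets of `E` are `Valid r s`, then `E` is `Valid F F`, with `F`
depending only on `r` and `s`.
-/

set_option autoImplicit false

namespace Pool.Agent.H66.Circle

/-- pairwise crossing -/
def Tw (T : Finset (ℕ × ℕ)) : Prop := ∀ p ∈ T, ∀ q ∈ T, p ≠ q → cr p q ∨ cr q p

/-- pairwise nesting -/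
def Rb (T : Finset (ℕ × ℕ)) : Prop := ∀ p ∈ T, ∀ q ∈ T, p ≠ q → ns p q ∨ ns q p

/-- no `r`-twist -/
def ntw (r : ℕ) (S : Finset (ℕ × ℕ)) : Prop := ∀ T ⊆ S, Tw T → T.card < r

/-- no `s`-rainbow -/
def nrb (s : ℕ) (Q : Finset (ℕ × ℕ)) : Prop := ∀ T ⊆ Q, Rb T → T.card < s

/-- `E` is covered by a set without `r`-twists and a set without `s`-rainbows. -/
def Valid (r s : ℕ) (E : Finset (ℕ × ℕ)) : Prop :=
  ∃ S Q : Finset (ℕ × ℕ), E ⊆ S ∪ Q ∧ ntw r S ∧ nrb s Q

lemma Tw.subset {T T' : Finset (ℕ × ℕ)} (h : Tw T) (h' : T' ⊆ T) : Tw T' :=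
  fun p hp q hq => h p (h' hp) q (h' hq)

lemma Rb.subset {T T' : Finset (ℕ × ℕ)} (h : Rb T) (h' : T' ⊆ T) : Rb T' :=
  fun p hp q hq => h p (h' hp) q (h' hq)

lemma ntw.subset {r : ℕ} {S S' : Finset (ℕ × ℕ)} (h : ntw r S) (h' : S' ⊆ S) : ntw r S' :=
  fun T hT => h T (hT.trans h')

lemma nrb.subset {r : ℕ} {S S' : Finset (ℕ × ℕ)} (h : nrb r S) (h' : S' ⊆ S) : nrb r S' :=
  fun T hT => h T (hT.trans h')

lemma ntw.mono {r r' : ℕ} {S : Finset (ℕ × ℕ)} (h : ntw r S) (h' : r ≤ r') : ntw r' S :=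
  fun T hT hT' => lt_of_lt_of_le (h T hT hT') h'

lemma nrb.mono {r r' : ℕ} {S : Finset (ℕ × ℕ)} (h : nrb r S) (h' : r ≤ r') : nrb r' S :=
  fun T hT hT' => lt_of_lt_of_le (h T hT hT') h'

lemma Valid.subset {r s : ℕ} {E E' : Finset (ℕ × ℕ)} (h : Valid r s E) (h' : E' ⊆ E) :
    Valid r s E' := by
  obtain ⟨S, Q, h1, h2, h3⟩ := h
  exact ⟨S, Q, h'.trans h1, h2, h3⟩

lemma Valid.mono {r s r' s' : ℕ} {E : Finset (ℕ × ℕ)} (h : Valid r s E) (hr : r ≤ r')
    (hs : s ≤ s') : Valid r' s' E := by
  obtain ⟨S, Q, h1, h2, h3⟩ := h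
  exact ⟨S, Q, h1, h2.mono hr, h3.mono hs⟩

lemma ntw.union {a b : ℕ} {S S' : Finset (ℕ × ℕ)} (h : ntw a S) (h' : ntw b S') :
    ntw (a + b) (S ∪ S') := by
  intro T hT hTw
  have h1 := h (T ∩ S) Finset.inter_subset_right (hTw.subset Finset.inter_subset_left)
  have h2 := h' (T \ S) (by
    intro p hp
    rw [Finset.mem_sdiff] at hp
    exact (Finset.mem_union.mp (hT hp.1)).resolve_left hp.2)
    (hTw.subset Finset.sdiff_subset)
  have h3 := Finset.card_inter_add_card_sdiff T S
  omega

lemma nrb.union {a b : ℕ} {S S' : Finset (ℕ × ℕ)} (h : nrb a S) (h' : nrb b S') :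
    nrb (a + b) (S ∪ S') := by
  intro T hT hTw
  have h1 := h (T ∩ S) Finset.inter_subset_right (hTw.subset Finset.inter_subset_left)
  have h2 := h' (T \ S) (by
    intro p hp
    rw [Finset.mem_sdiff] at hp
    exact (Finset.mem_union.mp (hT hp.1)).resolve_left hp.2)
    (hTw.subset Finset.sdiff_subset)
  have h3 := Finset.card_inter_add_card_sdiff T S
  omega

lemma Valid.union {a b a' b' : ℕ} {E E' : Finset (ℕ × ℕ)} (h : Valid a b E)
    (h' : Valid a' b' E') : Valid (a + a') (b + b') (E ∪ E') := by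
  obtain ⟨S, Q, h1, h2, h3⟩ := h
  obtain ⟨S', Q', h1', h2', h3'⟩ := h'
  refine ⟨S ∪ S', Q ∪ Q', ?_, h2.union h2', h3.union h3'⟩
  intro p hp
  rw [Finset.mem_union] at hp
  rcases hp with hp | hp
  · have := h1 hp
    simp only [Finset.mem_union] at this ⊢
    tauto
  · have := h1' hp
    simp only [Finset.mem_union] at this ⊢
    tauto

/-- A set in which no two members cross or nest. -/
lemma valid_of_free {E : Finset (ℕ × ℕ)} (h : ∀ p ∈ E, ∀ q ∈ E, ¬ cr p q) : Valid 2 2 E := by
  refine ⟨E, ∅, by simp, ?_, ?_⟩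
  · intro T hT hTw
    by_contra hcon
    push Not at hcon
    obtain ⟨p, hp, q, hq, hpq⟩ := Finset.one_lt_card.mp (by omega : 1 < T.card)
    rcases hTw p hp q hq hpq with h1 | h1
    · exact h p (hT hp) q (hT hq) h1
    · exact h q (hT hq) p (hT hp) h1
  · intro T hT _
    rw [Finset.subset_empty] at hT
    rw [hT]; simp

/-! ### Gluing -/

/-- the cut points -/
noncomputable def cut (U : Finset (ℕ × ℕ)) : ℕ → ℕ
  | 0 => 0
  | i + 1 => max (cut U i + 1) ((flt U (fun f => f.1 ≤ cut U i)).sup Prod.snd)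

lemma cut_lt (U : Finset (ℕ × ℕ)) (i : ℕ) : cut U i < cut U (i + 1) := by
  rw [cut]
  exact lt_of_lt_of_le (Nat.lt_succ_self _) (le_max_left _ _)

lemma cut_strictMono (U : Finset (ℕ × ℕ)) : StrictMono (cut U) :=
  strictMono_nat_of_lt_succ (cut_lt U)

lemma le_cut (U : Finset (ℕ × ℕ)) (i : ℕ) : i ≤ cut U i := (cut_strictMono U).le_apply

lemma exists_cut (U : Finset (ℕ × ℕ)) (f : ℕ × ℕ) : ∃ i, f.1 ≤ cut U i := ⟨f.1, le_cut U f.1⟩

open scoped Classical in
/-- the index of the block of `f` -/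
noncomputable def blk (U : Finset (ℕ × ℕ)) (f : ℕ × ℕ) : ℕ := Nat.find (exists_cut U f)

lemma blk_spec (U : Finset (ℕ × ℕ)) (f : ℕ × ℕ) : f.1 ≤ cut U (blk U f) := by
  classical
  exact Nat.find_spec (exists_cut U f)

lemma blk_min (U : Finset (ℕ × ℕ)) (f : ℕ × ℕ) {j : ℕ} (hj : j < blk U f) : cut U j < f.1 := by
  classical
  have := Nat.find_min (exists_cut U f) hj
  omega

lemma right_le_cut {U : Finset (ℕ × ℕ)} {f : ℕ × ℕ} (hf : f ∈ U) :
    f.2 ≤ cut U (blk U f + 1) := by
  rw [cut]
  refine le_trans ?_ (le_max_right _ _)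
  have : f ∈ flt U (fun g => g.1 ≤ cut U (blk U f)) := mem_flt.mpr ⟨hf, blk_spec U f⟩
  exact Finset.le_sup (f := Prod.snd) this

lemma blk_far {U : Finset (ℕ × ℕ)} {f g : ℕ × ℕ} (hf : f ∈ U) (h : blk U f + 2 ≤ blk U g) :
    f.2 < g.1 :=
  lt_of_le_of_lt (right_le_cut hf) (blk_min U g (by omega))

lemma blk_valid {U : Finset (ℕ × ℕ)} {F : ℕ} (hF : 2 ≤ F)
    (hZ : ∀ e ∈ U, Valid F F (flt U (fun f => f.1 ≤ e.2 ∧ e.1 ≤ f.2)))
    (hlt : ∀ p ∈ U, p.1 < p.2) (i : ℕ) : Valid F F (flt U (fun f => blk U f = i)) := by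
  have hstar : ∀ v, Valid F F (flt U (fun f => f.1 = v)) := by
    intro v
    refine (valid_of_free ?_).mono hF hF
    intro p hp q hq hpq
    have h1 := (mem_flt.mp hp).2
    have h2 := (mem_flt.mp hq).2
    unfold cr at hpq
    omega
  match i with
  | 0 =>
    refine (hstar 0).subset ?_
    intro f hf
    rw [mem_flt] at hf ⊢
    have := blk_spec U f
    rw [hf.2, cut] at this
    exact ⟨hf.1, by omega⟩
  | j + 1 =>
    set R := (flt U (fun f => f.1 ≤ cut U j)).sup Prod.snd with hR
    by_cases hRle : R ≤ cut U j + 1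
    · refine (hstar (cut U j + 1)).subset ?_
      intro f hf
      rw [mem_flt] at hf ⊢
      have h1 := blk_spec U f
      have h2 := blk_min U f (show j < blk U f by omega)
      rw [hf.2, cut, ← hR, max_eq_left hRle] at h1
      exact ⟨hf.1, by omega⟩
    · push Not at hRle
      have hne : (flt U (fun f => f.1 ≤ cut U j)).Nonempty := by
        by_contra hcon
        rw [Finset.not_nonempty_iff_eq_empty] at hcon
        rw [hR, hcon] at hRle
        simp at hRle
      obtain ⟨e, he, hee⟩ := Finset.exists_mem_eq_sup _ hne Prod.snd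
      rw [mem_flt] at he
      refine (hZ e he.1).subset ?_
      intro f hf
      rw [mem_flt] at hf ⊢
      have h1 := blk_spec U f
      have h2 := blk_min U f (show j < blk U f by omega)
      rw [hf.2, cut, ← hR, max_eq_right hRle.le] at h1
      have h3 := hlt f hf.1
      rw [hR, hee] at h1
      exact ⟨hf.1, h1, by omega⟩

lemma glue {U : Finset (ℕ × ℕ)} {F : ℕ} (hF : 2 ≤ F) (hlt : ∀ p ∈ U, p.1 < p.2)
    (hZ : ∀ e ∈ U, Valid F F (flt U (fun f => f.1 ≤ e.2 ∧ e.1 ≤ f.2))) :
    Valid (F + F) (F + F) U := by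
  have hb := blk_valid hF hZ hlt
  choose S Q h1 h2 h3 using hb
  refine ⟨flt U (fun f => f ∈ S (blk U f)), flt U (fun f => f ∈ Q (blk U f)), ?_, ?_, ?_⟩
  · intro f hf
    have := h1 (blk U f) (mem_flt.mpr ⟨hf, rfl⟩)
    rw [Finset.mem_union] at this ⊢
    rw [mem_flt, mem_flt]
    tauto
  · intro T hT hTw
    rcases T.eq_empty_or_nonempty with rfl | hne
    · simp; omega
    obtain ⟨f0, hf0, hmin⟩ := Finset.exists_min_image T (blk U) hne
    have hle : ∀ f ∈ T, blk U f = blk U f0 ∨ blk U f = blk U f0 + 1 := by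
      intro f hf
      by_contra hcon
      have h4 := hmin f hf
      have h5 : blk U f0 + 2 ≤ blk U f := by omega
      have h6 := blk_far (mem_flt.mp (hT hf0)).1 h5
      have h7 : f0 ≠ f := by
        rintro rfl; omega
      have h8 := hTw f0 hf0 f hf h7
      have h9 := hlt f0 (mem_flt.mp (hT hf0)).1
      have h10 := hlt f (mem_flt.mp (hT hf)).1
      unfold cr at h8
      omega
    refine (((h2 (blk U f0)).union (h2 (blk U f0 + 1))).subset ?_) T (Finset.Subset.refl _) hTw
    intro f hf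
    rw [Finset.mem_union]
    have h4 := (mem_flt.mp (hT hf)).2
    rcases hle f hf with h | h
    · left; rw [← h]; exact h4
    · right; rw [← h]; exact h4
  · intro T hT hTw
    rcases T.eq_empty_or_nonempty with rfl | hne
    · simp; omega
    obtain ⟨f0, hf0, hmin⟩ := Finset.exists_min_image T (blk U) hne
    have hle : ∀ f ∈ T, blk U f = blk U f0 ∨ blk U f = blk U f0 + 1 := by
      intro f hf
      by_contra hcon
      have h4 := hmin f hf
      have h5 : blk U f0 + 2 ≤ blk U f := by omega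
      have h6 := blk_far (mem_flt.mp (hT hf0)).1 h5
      have h7 : f0 ≠ f := by
        rintro rfl; omega
      have h8 := hTw f0 hf0 f hf h7
      have h9 := hlt f0 (mem_flt.mp (hT hf0)).1
      have h10 := hlt f (mem_flt.mp (hT hf)).1
      unfold ns at h8
      omega
    refine (((h3 (blk U f0)).union (h3 (blk U f0 + 1))).subset ?_) T (Finset.Subset.refl _) hTw
    intro f hf
    rw [Finset.mem_union]
    have h4 := (mem_flt.mp (hT hf)).2
    rcases hle f hf with h | h
    · left; rw [← h]; exact h4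
    · right; rw [← h]; exact h4

/-! ### Forced edges -/

lemma cr_irrefl (p : ℕ × ℕ) : ¬ cr p p := by unfold cr; omega
lemma ns_irrefl (p : ℕ × ℕ) : ¬ ns p p := by unfold ns; omega

/-- If `e` crosses all of `W`, where `W` is not `Valid r s`, then `e` is not in the stack part of a
valid cover of a set containing `e` and `W`. -/
lemma not_mem_stack {r s : ℕ} {S Q W : Finset (ℕ × ℕ)} {e : ℕ × ℕ} (hS : ntw (r + 1) S)
    (hQ : nrb s Q) (hW : W ⊆ S ∪ Q) (hnot : ¬ Valid r s W)
    (hcr : ∀ f ∈ W, cr e f ∨ cr f e) : e ∉ S := by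
  intro he
  apply hnot
  refine ⟨W ∩ S, W ∩ Q, ?_, ?_, hQ.subset Finset.inter_subset_right⟩
  · intro f hf
    have := hW hf
    rw [Finset.mem_union] at this ⊢
    rw [Finset.mem_inter, Finset.mem_inter]
    tauto
  · intro T hT hTw
    have heT : e ∉ T := by
      intro h
      have := hcr e (Finset.mem_inter.mp (hT h)).1
      exact this.elim (cr_irrefl e) (cr_irrefl e)
    have h1 := hS (insert e T) (by
      intro f hf
      rw [Finset.mem_insert] at hf
      rcases hf with rfl | hf
      · exact he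
      · exact (Finset.mem_inter.mp (hT hf)).2) (by
      intro p hp q hq hpq
      rw [Finset.mem_insert] at hp hq
      rcases hp with rfl | hp
      · rcases hq with rfl | hq
        · exact absurd rfl hpq
        · exact hcr q (Finset.mem_inter.mp (hT hq)).1
      · rcases hq with rfl | hq
        · exact (hcr p (Finset.mem_inter.mp (hT hp)).1).symm
        · exact hTw p hp q hq hpq)
    rw [Finset.card_insert_of_notMem heT] at h1
    omega

lemma not_mem_queue {r s : ℕ} {S Q W : Finset (ℕ × ℕ)} {e : ℕ × ℕ} (hS : ntw r S)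
    (hQ : nrb (s + 1) Q) (hW : W ⊆ S ∪ Q) (hnot : ¬ Valid r s W)
    (hcr : ∀ f ∈ W, ns e f ∨ ns f e) : e ∉ Q := by
  intro he
  apply hnot
  refine ⟨W ∩ S, W ∩ Q, ?_, hS.subset Finset.inter_subset_right, ?_⟩
  · intro f hf
    have := hW hf
    rw [Finset.mem_union] at this ⊢
    rw [Finset.mem_inter, Finset.mem_inter]
    tauto
  · intro T hT hTw
    have heT : e ∉ T := by
      intro h
      have := hcr e (Finset.mem_inter.mp (hT h)).1
      exact this.elim (ns_irrefl e) (ns_irrefl e)
    have h1 := hQ (insert e T) (by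
      intro f hf
      rw [Finset.mem_insert] at hf
      rcases hf with rfl | hf
      · exact he
      · exact (Finset.mem_inter.mp (hT hf)).2) (by
      intro p hp q hq hpq
      rw [Finset.mem_insert] at hp hq
      rcases hp with rfl | hp
      · rcases hq with rfl | hq
        · exact absurd rfl hpq
        · exact hcr q (Finset.mem_inter.mp (hT hq)).1
      · rcases hq with rfl | hq
        · exact (hcr p (Finset.mem_inter.mp (hT hp)).1).symm
        · exact hTw p hp q hq hpq)
    rw [Finset.card_insert_of_notMem heT] at h1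
    omega

/-- Edges forced into the queue part contain no large rainbow. -/
lemma forced_queue {r s N N1 : ℕ} {E : Finset (ℕ × ℕ)} (hN : s * (N1 + 1) ≤ N)
    (hloc : ∀ W ⊆ E, W.card ≤ N → Valid (r + 1) s W) :
    nrb s (flt E (fun e => ∃ W ⊆ E, W.card ≤ N1 ∧ ¬ Valid r s W ∧
      ∀ f ∈ W, cr e f ∨ cr f e)) := by
  classical
  intro T hT hRb
  by_contra hcon
  push Not at hcon
  obtain ⟨T', hT', hcard⟩ := Finset.exists_subset_card_eq hcon
  have hw : ∀ e : ℕ × ℕ, ∃ W : Finset (ℕ × ℕ), e ∈ T' → (W ⊆ E ∧ W.card ≤ N1 ∧ ¬ Valid r s W ∧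
      ∀ f ∈ W, cr e f ∨ cr f e) := by
    intro e
    by_cases h : e ∈ T'
    · obtain ⟨W, h1⟩ := (mem_flt.mp (hT (hT' h))).2
      exact ⟨W, fun _ => h1⟩
    · exact ⟨∅, fun h' => absurd h' h⟩
  choose W hW using hw
  set H := T' ∪ T'.biUnion W with hH
  have hHE : H ⊆ E := by
    refine Finset.union_subset ?_ ?_
    · intro e he
      exact (mem_flt.mp (hT (hT' he))).1
    · intro e he
      rw [Finset.mem_biUnion] at he
      obtain ⟨a, ha, hea⟩ := he
      exact (hW a ha).1 hea
  have hHc : H.card ≤ N := by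
    have h1 : H.card ≤ T'.card + (T'.biUnion W).card := Finset.card_union_le T' (T'.biUnion W)
    have h2 : (T'.biUnion W).card ≤ T'.card * N1 :=
      Finset.card_biUnion_le_card_mul _ _ _ (fun a ha => (hW a ha).2.1)
    rw [hcard] at h1 h2
    calc H.card ≤ s + s * N1 := by omega
      _ = s * (N1 + 1) := by ring
      _ ≤ N := hN
  obtain ⟨S, Q, h1, h2, h3⟩ := hloc H hHE hHc
  have hTQ : T' ⊆ Q := by
    intro e he
    have h4 := h1 (Finset.mem_union_left _ he)
    rw [Finset.mem_union] at h4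
    refine h4.resolve_left ?_
    refine not_mem_stack h2 h3 (W := W e) ?_ (hW e he).2.2.1 (hW e he).2.2.2
    intro f hf
    exact h1 (Finset.mem_union_right _ (Finset.mem_biUnion.mpr ⟨e, he, hf⟩))
  have := h3 T' hTQ (hRb.subset hT')
  omega

lemma forced_stack {r s N N2 : ℕ} {E : Finset (ℕ × ℕ)} (hN : r * (N2 + 1) ≤ N)
    (hloc : ∀ W ⊆ E, W.card ≤ N → Valid r (s + 1) W) :
    ntw r (flt E (fun e => ∃ W ⊆ E, W.card ≤ N2 ∧ ¬ Valid r s W ∧
      ∀ f ∈ W, ns e f ∨ ns f e)) := by
  classical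
  intro T hT hRb
  by_contra hcon
  push Not at hcon
  obtain ⟨T', hT', hcard⟩ := Finset.exists_subset_card_eq hcon
  have hw : ∀ e : ℕ × ℕ, ∃ W : Finset (ℕ × ℕ), e ∈ T' → (W ⊆ E ∧ W.card ≤ N2 ∧ ¬ Valid r s W ∧
      ∀ f ∈ W, ns e f ∨ ns f e) := by
    intro e
    by_cases h : e ∈ T'
    · obtain ⟨W, h1⟩ := (mem_flt.mp (hT (hT' h))).2
      exact ⟨W, fun _ => h1⟩
    · exact ⟨∅, fun h' => absurd h' h⟩
  choose W hW using hw
  set H := T' ∪ T'.biUnion W with hH
  have hHE : H ⊆ E := by
    refine Finset.union_subset ?_ ?_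
    · intro e he
      exact (mem_flt.mp (hT (hT' he))).1
    · intro e he
      rw [Finset.mem_biUnion] at he
      obtain ⟨a, ha, hea⟩ := he
      exact (hW a ha).1 hea
  have hHc : H.card ≤ N := by
    have h1 : H.card ≤ T'.card + (T'.biUnion W).card := Finset.card_union_le T' (T'.biUnion W)
    have h2 : (T'.biUnion W).card ≤ T'.card * N2 :=
      Finset.card_biUnion_le_card_mul _ _ _ (fun a ha => (hW a ha).2.1)
    rw [hcard] at h1 h2
    calc H.card ≤ r + r * N2 := by omega
      _ = r * (N2 + 1) := by ring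
      _ ≤ N := hN
  obtain ⟨S, Q, h1, h2, h3⟩ := hloc H hHE hHc
  have hTQ : T' ⊆ S := by
    intro e he
    have h4 := h1 (Finset.mem_union_left _ he)
    rw [Finset.mem_union] at h4
    refine h4.resolve_right ?_
    refine not_mem_queue h2 h3 (W := W e) ?_ (hW e he).2.2.1 (hW e he).2.2.2
    intro f hf
    exact h1 (Finset.mem_union_right _ (Finset.mem_biUnion.mpr ⟨e, he, hf⟩))
  have := h2 T' hTQ (hRb.subset hT')
  omega

/-! ### The local-to-global theorem -/

lemma ntw_empty (r : ℕ) : ntw (r + 1) ∅ := by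
  intro T hT _
  rw [Finset.subset_empty] at hT
  rw [hT]; simp

lemma nrb_empty (r : ℕ) : nrb (r + 1) ∅ := by
  intro T hT _
  rw [Finset.subset_empty] at hT
  rw [hT]; simp

theorem local_global : ∀ r s : ℕ, ∃ N F : ℕ, ∀ E : Finset (ℕ × ℕ), (∀ p ∈ E, p.1 < p.2) →
    (∀ W ⊆ E, W.card ≤ N → Valid (r + 1) (s + 1) W) → Valid F F E := by
  intro r
  induction r with
  | zero =>
    intro s
    refine ⟨s + 1, s + 1, ?_⟩
    intro E _ hloc
    refine ⟨∅, E, by simp, ntw_empty s, ?_⟩
    intro T hT hRb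
    by_contra hcon
    push Not at hcon
    obtain ⟨T', hT', hcard⟩ := Finset.exists_subset_card_eq hcon
    obtain ⟨S, Q, h1, h2, h3⟩ := hloc T' (hT'.trans hT) hcard.le
    have hTQ : T' ⊆ Q := by
      intro e he
      refine (Finset.mem_union.mp (h1 he)).resolve_left ?_
      intro heS
      have := h2 {e} (by simpa using heS) (by
        intro p hp q hq hpq
        rw [Finset.mem_singleton] at hp hq
        exact absurd (hp.trans hq.symm) hpq)
      simp at this
    have := h3 T' hTQ (hRb.subset hT')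
    omega
  | succ r ihr =>
    intro s
    induction s with
    | zero =>
      refine ⟨r + 2, r + 2, ?_⟩
      intro E _ hloc
      refine ⟨E, ∅, by simp, ?_, nrb_empty (r + 1)⟩
      intro T hT hRb
      by_contra hcon
      push Not at hcon
      obtain ⟨T', hT', hcard⟩ := Finset.exists_subset_card_eq hcon
      obtain ⟨S, Q, h1, h2, h3⟩ := hloc T' (hT'.trans hT) hcard.le
      have hTQ : T' ⊆ S := by
        intro e he
        refine (Finset.mem_union.mp (h1 he)).resolve_right ?_
        intro heS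
        have := h3 {e} (by simpa using heS) (by
          intro p hp q hq hpq
          rw [Finset.mem_singleton] at hp hq
          exact absurd (hp.trans hq.symm) hpq)
        simp at this
      have := h2 T' hTQ (hRb.subset hT')
      omega
    | succ s ihs =>
      obtain ⟨N1, F1, hF1⟩ := ihr (s + 1)
      obtain ⟨N2, F2, hF2⟩ := ihs
      set F0 := F1 + F2 + 8 with hF0
      refine ⟨(s + 2) * (N1 + 1) + (r + 2) * (N2 + 1), (r + 2) + (s + 2) + (F0 + F0), ?_⟩
      intro E hlt hloc
      set Q1 := flt E (fun e => ∃ W ⊆ E, W.card ≤ N1 ∧ ¬ Valid (r + 1) (s + 2) W ∧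
        ∀ f ∈ W, cr e f ∨ cr f e) with hQ1
      set S1 := flt E (fun e => ∃ W ⊆ E, W.card ≤ N2 ∧ ¬ Valid (r + 2) (s + 1) W ∧
        ∀ f ∈ W, ns e f ∨ ns f e) with hS1
      have hQ1' : nrb (s + 2) Q1 := forced_queue (Nat.le_add_right _ _) hloc
      have hS1' : ntw (r + 2) S1 := forced_stack (Nat.le_add_left _ _) hloc
      set U := flt E (fun e => e ∉ Q1 ∧ e ∉ S1) with hU
      have hUE : U ⊆ E := flt_subset _ _
      have hUlt : ∀ p ∈ U, p.1 < p.2 := fun p hp => hlt p (hUE hp)
      have hZ : ∀ e ∈ U, Valid F0 F0 (flt U (fun f => f.1 ≤ e.2 ∧ e.1 ≤ f.2)) := by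
        intro e he
        have he' := mem_flt.mp he
        have hX : Valid F1 F1 (flt U (fun f => cr e f ∨ cr f e)) := by
          refine hF1 _ (fun p hp => hUlt p (flt_subset _ _ hp)) ?_
          intro W hW hWc
          by_contra hnot
          refine he'.2.1 (mem_flt.mpr ⟨he'.1, W, ?_, hWc, hnot, ?_⟩)
          · exact hW.trans ((flt_subset _ _).trans hUE)
          · intro f hf
            exact (mem_flt.mp (hW hf)).2
        have hNe : Valid F2 F2 (flt U (fun f => ns e f ∨ ns f e)) := by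
          refine hF2 _ (fun p hp => hUlt p (flt_subset _ _ hp)) ?_
          intro W hW hWc
          by_contra hnot
          refine he'.2.2 (mem_flt.mpr ⟨he'.1, W, ?_, hWc, hnot, ?_⟩)
          · exact hW.trans ((flt_subset _ _).trans hUE)
          · intro f hf
            exact (mem_flt.mp (hW hf)).2
        have hstar1 : ∀ v, Valid 2 2 (flt U (fun f => f.1 = v)) := by
          intro v
          refine valid_of_free ?_
          intro p hp q hq hpq
          have h1 := (mem_flt.mp hp).2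
          have h2 := (mem_flt.mp hq).2
          unfold cr at hpq
          omega
        have hstar2 : ∀ v, Valid 2 2 (flt U (fun f => f.2 = v)) := by
          intro v
          refine valid_of_free ?_
          intro p hp q hq hpq
          have h1 := (mem_flt.mp hp).2
          have h2 := (mem_flt.mp hq).2
          unfold cr at hpq
          omega
        have hall := (hX.union hNe).union (((hstar1 e.1).union (hstar1 e.2)).union
          ((hstar2 e.1).union (hstar2 e.2)))
        refine (hall.subset ?_).mono (by omega) (by omega)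
        intro f hf
        have hf' := mem_flt.mp hf
        have h1 := hUlt f hf'.1
        have h2 := hUlt e he
        simp only [Finset.mem_union, mem_flt]
        have h3 := hf'.2
        have hfU := hf'.1
        unfold cr ns
        by_cases g1 : f.1 = e.1
        · right; left; left; exact ⟨hfU, g1⟩
        by_cases g2 : f.1 = e.2
        · right; left; right; exact ⟨hfU, g2⟩
        by_cases g3 : f.2 = e.1
        · right; right; left; exact ⟨hfU, g3⟩
        by_cases g4 : f.2 = e.2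
        · right; right; right; exact ⟨hfU, g4⟩
        left
        by_cases g5 : (e.1 < f.1 ∧ f.1 < e.2 ∧ e.2 < f.2) ∨ (f.1 < e.1 ∧ e.1 < f.2 ∧ f.2 < e.2)
        · left; exact ⟨hfU, g5⟩
        · right; exact ⟨hfU, by omega⟩
      obtain ⟨SU, QU, g1, g2, g3⟩ := glue (by omega) hUlt hZ
      refine ⟨S1 ∪ SU, Q1 ∪ QU, ?_, ?_, ?_⟩
      · intro e he
        simp only [Finset.mem_union]
        by_cases h1 : e ∈ Q1
        · right; left; exact h1
        by_cases h2 : e ∈ S1
        · left; left; exact h2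
        have h3 := g1 (mem_flt.mpr ⟨he, h1, h2⟩)
        rw [Finset.mem_union] at h3
        tauto
      · exact (hS1'.union g2).mono (by omega)
      · exact (hQ1'.union g3).mono (by omega)

/-! ### Stacks and queues -/

/-- The number of pages needed for a `Valid F F` edge set. -/
def pages (F : ℕ) : ℕ := hb F (F + F) + F

lemma pairwise_mem {α : Type} {R : α → α → Prop} {T : List α} (h : T.Pairwise R) :
    ∀ p ∈ T, ∀ q ∈ T, p ≠ q → R p q ∨ R q p := by
  induction T with
  | nil => simp
  | cons a T ih =>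
    rw [List.pairwise_cons] at h
    intro p hp q hq hpq
    rw [List.mem_cons] at hp hq
    rcases hp with rfl | hp
    · rcases hq with rfl | hq
      · exact absurd rfl hpq
      · exact Or.inl (h.1 q hq)
    · rcases hq with rfl | hq
      · exact Or.inr (h.1 p hp)
      · exact ih h.2 p hp q hq hpq

theorem valid_pages {F : ℕ} {E : Finset (ℕ × ℕ)} (hlt : ∀ p ∈ E, p.1 < p.2)
    (h : Valid F F E) : ∃ c : ℕ × ℕ → ℕ, (∀ p ∈ E, c p < pages F) ∧
      ∀ i, (∀ p ∈ E, ∀ q ∈ E, c p = i → c q = i → ¬ cr p q) ∨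
        (∀ p ∈ E, ∀ q ∈ E, c p = i → c q = i → ¬ ns p q) := by
  classical
  obtain ⟨S, Q, h1, h2, h3⟩ := h
  have hNT : NT (F + 1) (E ∩ S) := by
    intro T hT hTS
    have hnd : T.Nodup := hT.imp (by
      intro a b hab heq
      rw [heq] at hab
      exact cr_irrefl b hab)
    have := h2 T.toFinset (by
      intro p hp
      rw [List.mem_toFinset] at hp
      exact (Finset.mem_inter.mp (hTS p hp)).2) (by
      intro p hp q hq hpq
      rw [List.mem_toFinset] at hp hq
      exact pairwise_mem hT p hp q hq hpq)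
    rw [List.toFinset_card_of_nodup hnd] at this
    omega
  obtain ⟨c1, hc11, hc12⟩ := circle_chi (fun p hp => hlt p (Finset.mem_inter.mp hp).1) hNT
  have hQ : Col ns (E ∩ Q) F := by
    refine mirsky ns F _ ?_ ?_
    · intro a _ b _ c _ hab hbc
      unfold ns at *
      omega
    · intro T hT hTQ
      have hnd : T.Nodup := hT.imp (by
        intro a b hab heq
        rw [heq] at hab
        exact ns_irrefl b hab)
      have := h3 T.toFinset (by
        intro p hp
        rw [List.mem_toFinset] at hp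
        exact (Finset.mem_inter.mp (hTQ p hp)).2) (by
        intro p hp q hq hpq
        rw [List.mem_toFinset] at hp hq
        exact pairwise_mem hT p hp q hq hpq)
      rw [List.toFinset_card_of_nodup hnd] at this
      omega
  obtain ⟨c2, hc21, hc22⟩ := hQ
  have hmemQ : ∀ p ∈ E, p ∉ S → p ∈ E ∩ Q := by
    intro p hp hpS
    exact Finset.mem_inter.mpr ⟨hp, (Finset.mem_union.mp (h1 hp)).resolve_left hpS⟩
  have hcol : ∀ p, (p ∈ S → (if p ∈ S then c1 p else hb F (F + F) + c2 p) = c1 p) ∧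
      (p ∉ S → (if p ∈ S then c1 p else hb F (F + F) + c2 p) = hb F (F + F) + c2 p) :=
    fun p => ⟨fun h => if_pos h, fun h => if_neg h⟩
  refine ⟨fun p => if p ∈ S then c1 p else hb F (F + F) + c2 p, ?_, ?_⟩
  · intro p hp
    show (if p ∈ S then c1 p else hb F (F + F) + c2 p) < pages F
    unfold pages
    by_cases hpS : p ∈ S
    · rw [if_pos hpS]
      have := hc11 p (Finset.mem_inter.mpr ⟨hp, hpS⟩)
      omega
    · rw [if_neg hpS]
      have := hc21 p (hmemQ p hp hpS)
      omega
  · intro i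
    by_cases hi : i < hb F (F + F)
    · left
      intro p hp q hq hpi hqi hpq
      have hpi' : (if p ∈ S then c1 p else hb F (F + F) + c2 p) = i := hpi
      have hqi' : (if q ∈ S then c1 q else hb F (F + F) + c2 q) = i := hqi
      have hpS : p ∈ S := by
        by_contra h
        rw [if_neg h] at hpi'
        omega
      have hqS : q ∈ S := by
        by_contra h
        rw [if_neg h] at hqi'
        omega
      rw [if_pos hpS] at hpi'
      rw [if_pos hqS] at hqi'
      exact hc12 p (Finset.mem_inter.mpr ⟨hp, hpS⟩) q (Finset.mem_inter.mpr ⟨hq, hqS⟩) hpq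
        (hpi'.trans hqi'.symm)
    · right
      intro p hp q hq hpi hqi hpq
      have hpi' : (if p ∈ S then c1 p else hb F (F + F) + c2 p) = i := hpi
      have hqi' : (if q ∈ S then c1 q else hb F (F + F) + c2 q) = i := hqi
      have hpS : p ∉ S := by
        intro h
        rw [if_pos h] at hpi'
        have := hc11 p (Finset.mem_inter.mpr ⟨hp, h⟩)
        omega
      have hqS : q ∉ S := by
        intro h
        rw [if_pos h] at hqi'
        have := hc11 q (Finset.mem_inter.mpr ⟨hq, h⟩)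
        omega
      rw [if_neg hpS] at hpi'
      rw [if_neg hqS] at hqi'
      exact hc22 p (hmemQ p hp hpS) q (hmemQ q hq hqS) hpq (by omega)

/-- If `E` splits into fewer than `k` stacks and queues, then `E` is `Valid k k`. -/
lemma valid_of_pages {k : ℕ} {E : Finset (ℕ × ℕ)} (c : ℕ × ℕ → ℕ) (hk : 1 ≤ k)
    (hc : ∀ p ∈ E, c p < k - 1)
    (hcls : ∀ i, (∀ p ∈ E, ∀ q ∈ E, c p = i → c q = i → ¬ cr p q) ∨
        (∀ p ∈ E, ∀ q ∈ E, c p = i → c q = i → ¬ ns p q)) : Valid k k E := by
  classical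
  set St : ℕ → Prop := fun i => ∀ p ∈ E, ∀ q ∈ E, c p = i → c q = i → ¬ cr p q with hSt
  have hpig : ∀ T ⊆ E, ¬ Set.InjOn c T → ∃ p ∈ T, ∃ q ∈ T, p ≠ q ∧ c p = c q := by
    intro T _ hinj
    unfold Set.InjOn at hinj
    push Not at hinj
    obtain ⟨p, hp, q, hq, h1, h2⟩ := hinj
    exact ⟨p, hp, q, hq, h2, h1⟩
  have hcard : ∀ T ⊆ E, Set.InjOn c T → T.card < k := by
    intro T hT hinj
    have h1 : T.card ≤ (Finset.range (k - 1)).card := by
      refine Finset.card_le_card_of_injOn c ?_ hinj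
      intro p hp
      simp only [Finset.coe_range, Set.mem_Iio]
      exact hc p (hT hp)
    rw [Finset.card_range] at h1
    omega
  refine ⟨flt E (fun p => St (c p)), flt E (fun p => ¬ St (c p)), ?_, ?_, ?_⟩
  · intro p hp
    rw [Finset.mem_union, mem_flt, mem_flt]
    tauto
  · intro T hT hTw
    have hTE : T ⊆ E := hT.trans (flt_subset _ _)
    by_contra hcon
    have hninj : ¬ Set.InjOn c T := fun h => hcon (hcard T hTE h)
    obtain ⟨p, hp, q, hq, hpq, hcpq⟩ := hpig T hTE hninj
    have h1 : St (c p) := (mem_flt.mp (hT hp)).2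
    rcases hTw p hp q hq hpq with h | h
    · exact h1 p (hTE hp) q (hTE hq) rfl hcpq.symm h
    · exact h1 q (hTE hq) p (hTE hp) hcpq.symm rfl h
  · intro T hT hTw
    have hTE : T ⊆ E := hT.trans (flt_subset _ _)
    by_contra hcon
    have hninj : ¬ Set.InjOn c T := fun h => hcon (hcard T hTE h)
    obtain ⟨p, hp, q, hq, hpq, hcpq⟩ := hpig T hTE hninj
    have h1 : ¬ St (c p) := (mem_flt.mp (hT hp)).2
    have h2 := (hcls (c p)).resolve_left h1
    rcases hTw p hp q hq hpq with h | h
    · exact h2 p (hTE hp) q (hTE hq) rfl hcpq.symm h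
    · exact h2 q (hTE hq) p (hTE hp) hcpq.symm rfl h

/-- **Local-to-global theorem for pages.** If every subset of at most `N` edges splits into fewer
than `k` stacks and queues, then `E` splits into `pages F` stacks and queues. -/
theorem local_global_pages (k : ℕ) (hk : 1 ≤ k) : ∃ N F : ℕ, ∀ E : Finset (ℕ × ℕ),
    (∀ p ∈ E, p.1 < p.2) →
    (∀ W ⊆ E, W.card ≤ N → ∃ c : ℕ × ℕ → ℕ, (∀ p ∈ W, c p < k - 1) ∧
      ∀ i, (∀ p ∈ W, ∀ q ∈ W, c p = i → c q = i → ¬ cr p q) ∨
        (∀ p ∈ W, ∀ q ∈ W, c p = i → c q = i → ¬ ns p q)) →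
    ∃ c : ℕ × ℕ → ℕ, (∀ p ∈ E, c p < F) ∧
      ∀ i, (∀ p ∈ E, ∀ q ∈ E, c p = i → c q = i → ¬ cr p q) ∨
        (∀ p ∈ E, ∀ q ∈ E, c p = i → c q = i → ¬ ns p q) := by
  obtain ⟨N, F, hNF⟩ := local_global (k - 1) (k - 1)
  refine ⟨N, pages F, ?_⟩
  intro E hlt hloc
  refine valid_pages hlt (hNF E hlt ?_)
  intro W hW hWc
  obtain ⟨c, hc1, hc2⟩ := hloc W hW hWc
  have h1 := valid_of_pages c hk hc1 hc2
  have h2 : k - 1 + 1 = k := by omega
  rw [h2]
  exact h1

end Pool.Agent.H66.Circle
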